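import Mathlib

set_option autoImplicit false

namespace Pool.Agent.H.MP_b9c098_an
open scoped ENNReal

section WP
variable {Γ : Type} {G : Type*} [NormedAddCommGroup G] [NormedSpace ℂ G]

lemma exWP (σ : Γ → Γ) (hσ : Function.Involutive σ) (w : Γ → G →L[ℂ] G) (M : ℝ)
    (hw : ∀ γ, ‖w γ‖ ≤ M) (hM : 0 ≤ M) :
    ∃ T : lp (fun _ : Γ => G) 2 →L[ℂ] lp (fun _ : Γ => G) 2,
      ∀ f γ, T f γ = w γ (f (σ γ)) := by
  have h2 : (0:ℝ) < (2:ℝ≥0∞).toReal := by norm_num
  have hb : ∀ (f : lp (fun _ : Γ => G) 2) γ, ‖w γ (f (σ γ))‖ ^ (2:ℝ≥0∞).toReal ≤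
      M ^ (2:ℝ≥0∞).toReal * ‖f (σ γ)‖ ^ (2:ℝ≥0∞).toReal := by
    intro f γ
    rw [← Real.mul_rpow hM (norm_nonneg _)]
    refine Real.rpow_le_rpow (norm_nonneg _) ?_ h2.le
    exact ((w γ).le_opNorm _).trans (mul_le_mul_of_nonneg_right (hw γ) (norm_nonneg _))
  have hs : ∀ (f : lp (fun _ : Γ => G) 2),
      HasSum (fun γ => ‖f (σ γ)‖ ^ (2:ℝ≥0∞).toReal) (‖f‖ ^ (2:ℝ≥0∞).toReal) := by
    intro f
    exact (hσ.toPerm σ).hasSum_iff.mpr (lp.hasSum_norm h2 f)
  have hsm : ∀ (f : lp (fun _ : Γ => G) 2),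
      Summable fun γ => ‖w γ (f (σ γ))‖ ^ (2:ℝ≥0∞).toReal := fun f =>
    Summable.of_nonneg_of_le (fun _ => by positivity) (hb f) ((hs f).summable.mul_left _)
  have hm : ∀ (f : lp (fun _ : Γ => G) 2), Memℓp (fun γ => w γ (f (σ γ))) 2 := fun f =>
    memℓp_gen (hsm f)
  let L : lp (fun _ : Γ => G) 2 →ₗ[ℂ] lp (fun _ : Γ => G) 2 :=
    { toFun := fun f => ⟨fun γ => w γ (f (σ γ)), hm f⟩
      map_add' := fun f g => by ext γ; simp
      map_smul' := fun c f => by ext γ; simp }
  refine ⟨L.mkContinuous M fun f => ?_, fun f γ => rfl⟩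
  refine lp.norm_le_of_tsum_le h2 (by positivity) ?_
  rw [Real.mul_rpow hM (norm_nonneg _), ← (hs f).tsum_eq, ← tsum_mul_left]
  exact (hsm f).tsum_le_tsum (hb f) ((hs f).summable.mul_left _)

lemma exWP' {K : Type} [Finite K] (σ : Γ → Γ) (hσ : Function.Involutive σ) (cl : Γ → K)
    (w : K → G →L[ℂ] G) :
    ∃ T : lp (fun _ : Γ => G) 2 →L[ℂ] lp (fun _ : Γ => G) 2,
      ∀ f γ, T f γ = w (cl γ) (f (σ γ)) := by
  obtain ⟨M, hM⟩ := (Set.finite_range fun k => ‖w k‖).bddAbove
  refine exWP σ hσ (fun γ => w (cl γ)) (max M 0) (fun γ => ?_) (le_max_right _ _)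
  exact (hM ⟨cl γ, rfl⟩).trans (le_max_left _ _)
end WP

abbrev Blk : Type := ℕ × Bool × Bool
abbrev Gam : Type := Option (Blk × Bool)
abbrev Cls : Type := Option (Bool × Bool × Bool)

def cl : Gam → Cls
  | none => none
  | some ((_, c, p), s) => some (c, p, s)

def pi : Gam → Gam
  | none => none
  | some (b, s) => some (b, !s)

def sg : Gam → Gam
  | none => none
  | some ((n, c, p), s) => some ((n, c, !p), s)

def tau : Gam → Gam
  | none => none
  | some ((n, c, p), s) => some ((n, c, !p), !s)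

def rho : Gam → Gam
  | none => some ((0, false, false), false)
  | some ((0, false, false), false) => none
  | some ((n+1, false, false), false) => some ((n, false, false), true)
  | some ((n, false, false), true) => some ((n+1, false, false), false)
  | some ((n, false, true), false) => some ((5*n, true, false), true)
  | some ((n, false, true), true) => some ((5*n+1, true, false), true)
  | some ((n, true, false), false) => some ((5*n+2, true, false), true)
  | some ((n, true, true), false) => some ((5*n+3, true, false), true)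
  | some ((n, true, true), true) => some ((5*n+4, true, false), true)
  | some ((m, true, false), true) =>
    if m % 5 = 0 then some ((m/5, false, true), false)
    else if m % 5 = 1 then some ((m/5, false, true), true)
    else if m % 5 = 2 then some ((m/5, true, false), false)
    else if m % 5 = 3 then some ((m/5, true, true), false)
    else some ((m/5, true, true), true)

lemma pi_inv : Function.Involutive pi := by
  rintro (_ | ⟨b, s⟩) <;> simp [pi]
lemma sg_inv : Function.Involutive sg := by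
  rintro (_ | ⟨⟨n, c, p⟩, s⟩) <;> simp [sg]
lemma tau_inv : Function.Involutive tau := by
  rintro (_ | ⟨⟨n, c, p⟩, s⟩) <;> simp [tau]
lemma tau_sg (γ : Gam) : tau (sg γ) = pi γ := by
  rcases γ with (_ | ⟨⟨n, c, p⟩, s⟩) <;> simp [tau, sg, pi]

lemma rho_inv : Function.Involutive rho := by
  rintro (_ | ⟨⟨n, c, p⟩, s⟩)
  · simp [rho]
  · cases c <;> cases p <;> cases s
    · cases n <;> simp [rho]
    · simp [rho]
    · simp [rho]
    · have h1 : (5 * n + 1) % 5 = 1 := by omega
      have h2 : (5 * n + 1) / 5 = n := by omega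
      simp [rho, h1, h2]
    · have h1 : (5 * n + 2) % 5 = 2 := by omega
      have h2 : (5 * n + 2) / 5 = n := by omega
      simp [rho, h1, h2]
    · simp only [rho]
      split_ifs <;> simp only [rho] <;> congr 3 <;> omega
    · have h1 : (5 * n + 3) % 5 = 3 := by omega
      have h2 : (5 * n + 3) / 5 = n := by omega
      simp [rho, h1, h2]
    · have h1 : (5 * n + 4) % 5 = 4 := by omega
      have h2 : (5 * n + 4) / 5 = n := by omega
      simp [rho, h1, h2]

section W
variable {R : Type*} [Ring R] [Algebra ℂ R] (Y Z : R) (l : ℂ)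

noncomputable def wd : Cls → R
  | none => Y
  | some (false, false, false) => Z
  | some (false, false, true) => Y
  | some (true, false, false) => (l ^ 2) • 1
  | some (true, false, true) => (l ^ 2)⁻¹ • 1
  | some (_, true, _) => (l ^ 2) • 1

noncomputable def wx : Cls → R
  | none => 1
  | some (false, false, false) => Y
  | some (true, false, false) => (l ^ 2)⁻¹ • 1
  | some (false, true, false) => Z
  | some (true, true, false) => (l ^ 2) • 1
  | some (_, _, true) => 1

noncomputable def wy : Cls → R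
  | none => 1
  | some (false, false, false) => l⁻¹ • Y
  | some (true, false, false) => (l ^ 3)⁻¹ • 1
  | some (_, false, true) => l⁻¹ • 1
  | some (_, true, false) => l • 1
  | some (false, true, true) => l • Z
  | some (true, true, true) => (l ^ 3) • 1

noncomputable def wb : Cls → R
  | none => Y
  | some _ => l • 1

variable (hYZ : Y * Z = 1) (hZY : Z * Y = 1) (hl : l ≠ 0)
include hYZ hZY hl

lemma wd_rho (γ : Gam) : wd Y Z l (cl γ) * wd Y Z l (cl (rho γ)) = 1 := by
  rcases γ with (_ | ⟨⟨n, c, p⟩, s⟩)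
  · simp [rho, cl, wd, hYZ]
  · cases c <;> cases p <;> cases s
    · cases n <;> simp [rho, cl, wd, hZY]
    · simp [rho, cl, wd, hYZ]
    · simp [rho, cl, wd, smul_smul, hl]
    · simp [rho, cl, wd, smul_smul, hl]
    · simp [rho, cl, wd, smul_smul, hl]
    · simp only [rho]
      split_ifs <;> simp [cl, wd, smul_smul, hl]
    · simp [rho, cl, wd, smul_smul, hl]
    · simp [rho, cl, wd, smul_smul, hl]

lemma wx_sg (γ : Gam) : wx Y Z l (cl γ) * wx Y Z l (cl (sg γ)) = 1 := by
  rcases γ with (_ | ⟨⟨n, c, p⟩, s⟩)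
  · simp [sg, cl, wx]
  · cases c <;> cases p <;> cases s <;> simp [sg, cl, wx, smul_smul, hl, hYZ, hZY]

lemma wy_tau (γ : Gam) : wy Y Z l (cl γ) * wy Y Z l (cl (tau γ)) = 1 := by
  rcases γ with (_ | ⟨⟨n, c, p⟩, s⟩)
  · simp [tau, cl, wy]
  · cases c <;> cases p <;> cases s <;> simp [tau, cl, wy, smul_smul, hl, hYZ, hZY]

lemma w_prod (γ : Gam) :
    wd Y Z l (cl γ) * wx Y Z l (cl γ) * wy Y Z l (cl (sg γ)) = wb Y l (cl γ) := by
  rcases γ with (_ | ⟨⟨n, c, p⟩, s⟩)
  · simp [sg, cl, wd, wx, wy, wb]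
  · cases c <;> cases p <;> cases s <;>
      simp [sg, cl, wd, wx, wy, wb, smul_smul, hl, hYZ, hZY] <;>
      (congr 1; field_simp)
end W

lemma model {G : Type*} [NormedAddCommGroup G] [NormedSpace ℂ G] (Y Z : G →L[ℂ] G) (l : ℂ)
    (hYZ : Y * Z = 1) (hZY : Z * Y = 1) (hl : l ≠ 0) :
    ∃ J1 J2 J3 J4 : lp (fun _ : Gam => G) 2 →L[ℂ] lp (fun _ : Gam => G) 2,
      J1 * J1 = 1 ∧ J2 * J2 = 1 ∧ J3 * J3 = 1 ∧ J4 * J4 = 1 ∧
      ∀ f γ, (J1 * J2 * J3 * J4) f γ = wb Y l (cl γ) (f (pi γ)) := by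
  obtain ⟨J1, h1⟩ := exWP' rho rho_inv cl (wd Y Z l)
  obtain ⟨J2, h2⟩ := exWP' (G := G) rho rho_inv cl (fun _ => 1)
  obtain ⟨J3, h3⟩ := exWP' sg sg_inv cl (wx Y Z l)
  obtain ⟨J4, h4⟩ := exWP' tau tau_inv cl (wy Y Z l)
  refine ⟨J1, J2, J3, J4, ?_, ?_, ?_, ?_, fun f γ => ?_⟩
  · ext f γ
    rw [ContinuousLinearMap.mul_apply, h1, h1, rho_inv γ, ← ContinuousLinearMap.mul_apply,
      wd_rho Y Z l hYZ hZY hl]
    rfl
  · ext f γ
    rw [ContinuousLinearMap.mul_apply, h2, h2, rho_inv γ]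
    rfl
  · ext f γ
    rw [ContinuousLinearMap.mul_apply, h3, h3, sg_inv γ, ← ContinuousLinearMap.mul_apply,
      wx_sg Y Z l hYZ hZY hl]
    rfl
  · ext f γ
    rw [ContinuousLinearMap.mul_apply, h4, h4, tau_inv γ, ← ContinuousLinearMap.mul_apply,
      wy_tau Y Z l hYZ hZY hl]
    rfl
  · simp only [ContinuousLinearMap.mul_apply]
    rw [h1, h2, rho_inv γ, h3, h4, tau_sg, ← w_prod Y Z l hYZ hZY hl γ]
    rfl

end Pool.Agent.H.MP_b9c098_an
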