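import Pool.Agent.H.MP_b9c098_an.A

set_option autoImplicit false

namespace Pool.Agent.H.MP_b9c098_an
open scoped ENNReal InnerProductSpace
universe u

section Emb
variable {H : Type*} [NormedAddCommGroup H] [InnerProductSpace ℂ H] [CompleteSpace H]
  {G : Type*} [NormedAddCommGroup G] [InnerProductSpace ℂ G] {w : Type*}

noncomputable def emb (b : HilbertBasis w ℂ G) (u : w → H) (hu : Orthonormal ℂ u) : G →ₗᵢ[ℂ] H :=
  hu.orthogonalFamily.linearIsometry.comp b.repr.toLinearIsometry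

lemma emb_sum (b : HilbertBasis w ℂ G) (u : w → H) (hu : Orthonormal ℂ u) (x : G) :
    HasSum (fun j => b.repr x j • u j) (emb b u hu x) := by
  have := hu.orthogonalFamily.hasSum_linearIsometry (b.repr x)
  simpa [emb] using this

lemma emb_basis (b : HilbertBasis w ℂ G) (u : w → H) (hu : Orthonormal ℂ u) (j : w) :
    emb b u hu (b j) = u j := by
  classical
  unfold emb
  simp [b.repr_self, OrthogonalFamily.linearIsometry_apply_single]

lemma emb_orth (b : HilbertBasis w ℂ G) (u : w → H) (hu : Orthonormal ℂ u) (x : G) (y : H)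
    (hy : ∀ j, ⟪y, u j⟫_ℂ = 0) : ⟪y, emb b u hu x⟫_ℂ = 0 := by
  have h := (emb_sum b u hu x).mapL (innerSL ℂ y)
  simp only [innerSL_apply_apply, inner_smul_right, hy, mul_zero] at h
  exact h.unique hasSum_zero

lemma emb_map (b : HilbertBasis w ℂ G) (u u' : w → H) (hu : Orthonormal ℂ u)
    (hu' : Orthonormal ℂ u') (B : H →L[ℂ] H) (hB : ∀ j, B (u j) = u' j) (x : G) :
    B (emb b u hu x) = emb b u' hu' x := by
  have h := (emb_sum b u hu x).mapL B
  simp only [map_smul, hB] at h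
  exact h.unique (emb_sum b u' hu' x)
end Emb

lemma swindle {H : Type u} [NormedAddCommGroup H] [InnerProductSpace ℂ H] [CompleteSpace H]
    (B Bi : H →L[ℂ] H) (hB : B * Bi = 1) (hB' : Bi * B = 1) (l : ℂ) (hl : l ≠ 0)
    (ι : Type u) (e : ι → H) (h : Blk × Bool → ι → H) (he : Orthonormal ℂ e)
    (hh : ∀ γ, Orthonormal ℂ (h γ))
    (hh' : ∀ γ δ, γ ≠ δ → ∀ i j, ⟪h γ i, h δ j⟫_ℂ = 0)
    (heh : ∀ γ i j, ⟪h γ i, e j⟫_ℂ = 0)
    (hBh : ∀ β s j, B (h (β, s) j) = h (β, !s) j)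
    (hhB : ∀ β s j x, ⟪h (β, s) j, B x⟫_ℂ = ⟪h (β, !s) j, x⟫_ℂ)
    (hc : ∀ (κ : Type u) (v : κ → H), Orthonormal ℂ v → Cardinal.mk κ ≤ Cardinal.mk ι) :
    ∃ J1 J2 J3 J4 : H →L[ℂ] H, J1 * J1 = 1 ∧ J2 * J2 = 1 ∧ J3 * J3 = 1 ∧ J4 * J4 = 1 ∧
      l • B = J1 * J2 * J3 * J4 := by
  classical
  let G : Submodule ℂ H := (Submodule.span ℂ (Set.range fun p : (Blk × Bool) × ι => h p.1 p.2))ᗮ
  have mG : ∀ x, x ∈ G ↔ ∀ γ j, ⟪h γ j, x⟫_ℂ = 0 := by
    intro x
    constructor
    · intro hx γ j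
      exact hx _ (Submodule.subset_span ⟨(γ, j), rfl⟩)
    · intro hx y hy
      induction hy using Submodule.span_induction with
      | mem y hy => obtain ⟨p, rfl⟩ := hy; exact hx _ _
      | zero => simp
      | add a b _ _ ha hb => rw [inner_add_left, ha, hb, add_zero]
      | smul c a _ ha => rw [inner_smul_left, ha, mul_zero]
  have hBx : ∀ x, B (Bi x) = x := fun x => by
    rw [← ContinuousLinearMap.mul_apply, hB]; rfl
  have hBx' : ∀ x, Bi (B x) = x := fun x => by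
    rw [← ContinuousLinearMap.mul_apply, hB']; rfl
  have BG : ∀ x ∈ G, B x ∈ G := by
    intro x hx
    rw [mG] at hx ⊢
    rintro ⟨β, s⟩ j
    rw [hhB, hx]
  have BiG : ∀ x ∈ G, Bi x ∈ G := by
    intro x hx
    rw [mG] at hx ⊢
    rintro ⟨β, s⟩ j
    have := hhB β (!s) j (Bi x)
    rw [hBx, hx, Bool.not_not] at this
    exact this.symm
  let B0 : G →L[ℂ] G := (B.comp G.subtypeL).codRestrict G fun x => BG x x.2
  let B1 : G →L[ℂ] G := (Bi.comp G.subtypeL).codRestrict G fun x => BiG x x.2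
  have hYZ : (l • B0) * (l⁻¹ • B1) = 1 := by
    ext x
    simp [B0, B1, hBx, smul_smul, hl]
  have hZY : (l⁻¹ • B1) * (l • B0) = 1 := by
    ext x
    simp [B0, B1, hBx', smul_smul, hl]
  obtain ⟨J1, J2, J3, J4, h1, h2, h3, h4, hJ⟩ := model (l • B0) (l⁻¹ • B1) l hYZ hZY hl
  let e' : ι → G := fun i => ⟨e i, (mG _).mpr fun γ j => heh γ j i⟩
  have he' : Orthonormal ℂ e' := by
    rw [orthonormal_iff_ite] at he ⊢
    intro i j
    exact he i j
  obtain ⟨w, b, hw, hb⟩ := he'.toSubtypeRange.exists_hilbertBasis_extension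
  have hcard : Cardinal.mk w = Cardinal.mk ι := by
    refine le_antisymm (hc w (fun j => ((b j : G) : H)) ?_) ?_
    · exact G.subtypeₗᵢ.orthonormal_comp_iff.mpr b.orthonormal
    · rw [← Cardinal.mk_range_eq e' he'.linearIndependent.injective]
      exact Cardinal.mk_le_mk_of_subset hw
  obtain ⟨φ⟩ := Cardinal.eq.mp hcard
  have hφ : ∀ γ, Orthonormal ℂ fun j : w => h γ (φ j) := fun γ => (hh γ).comp φ φ.injective
  let V : Gam → (G →ₗᵢ[ℂ] H) := fun γ =>
    match γ with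
    | none => G.subtypeₗᵢ
    | some δ => emb b _ (hφ δ)
  have hVo : OrthogonalFamily ℂ (fun _ : Gam => G) V := by
    have key : ∀ δ (x y : G), ⟪V none x, V (some δ) y⟫_ℂ = 0 := by
      intro δ x y
      refine emb_orth b _ (hφ δ) y _ fun j => ?_
      rw [inner_eq_zero_symm]
      exact (mG _).mp x.2 _ _
    rintro (_ | γ) (_ | δ) hne x y
    · exact absurd rfl hne
    · exact key δ x y
    · rw [inner_eq_zero_symm]; exact key γ y x
    · refine emb_orth b _ (hφ δ) y _ fun j => ?_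
      rw [inner_eq_zero_symm]
      refine emb_orth b _ (hφ γ) x _ fun i => hh' _ _ ?_ _ _
      intro hh; exact hne (by rw [hh])
  have hV : IsHilbertSum ℂ (fun _ : Gam => G) V := by
    refine IsHilbertSum.mk hVo ?_
    rw [top_le_iff, Submodule.topologicalClosure_eq_top_iff, Submodule.eq_bot_iff]
    intro x hx
    have hx' : ∀ γ (y : G), ⟪V γ y, x⟫_ℂ = 0 := fun γ y =>
      hx _ (Submodule.mem_iSup_of_mem γ (LinearMap.mem_range_self _ y))
    have hxG : x ∈ G := by
      rw [mG]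
      intro γ j
      have := hx' (some γ) (b (φ.symm j))
      simp only [V] at this
      rw [emb_basis, φ.apply_symm_apply] at this
      exact this
    exact inner_self_eq_zero.mp (hx' none ⟨x, hxG⟩)
  let Φ := hV.linearIsometryEquiv.toContinuousLinearEquiv
  let cn : (lp (fun _ : Gam => G) 2 →L[ℂ] lp (fun _ : Gam => G) 2) → (H →L[ℂ] H) := fun T =>
    (Φ.symm : lp (fun _ : Gam => G) 2 →L[ℂ] H).comp (T.comp (Φ : H →L[ℂ] lp (fun _ : Gam => G) 2))
  have cj : ∀ T S, cn T * cn S = cn (T * S) := by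
    intro T S; ext x; simp [cn]
  have c1 : cn 1 = 1 := by
    ext x; simp [cn]
  refine ⟨cn J1, cn J2, cn J3, cn J4, by rw [cj, h1, c1],
    by rw [cj, h2, c1], by rw [cj, h3, c1], by rw [cj, h4, c1], ?_⟩
  rw [cj, cj, cj]
  ext x
  obtain ⟨f, rfl⟩ := Φ.symm.surjective x
  have s1 := (hV.hasSum_linearIsometryEquiv_symm f).mapL (l • B)
  have s2 := hV.hasSum_linearIsometryEquiv_symm ((J1 * J2 * J3 * J4) f)
  have s3 := (pi_inv.toPerm pi).hasSum_iff.mpr s1
  have : (fun γ => V γ ((J1 * J2 * J3 * J4) f γ)) =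
      (fun γ => (l • B) (V γ (f γ))) ∘ (pi_inv.toPerm pi) := by
    funext γ
    rw [hJ]
    rcases γ with (_ | ⟨β, s⟩)
    · simp [V, wb, cl, pi, B0]
    · obtain ⟨n, c, p⟩ := β
      simp only [V, wb, cl, pi, Function.comp, Function.Involutive.coe_toPerm,
        ContinuousLinearMap.smul_apply, ContinuousLinearMap.one_apply, map_smul]
      rw [emb_map b _ _ (hφ ((n, c, p), !s)) (hφ ((n, c, p), s)) B
        (fun j => by rw [hBh, Bool.not_not])]
  rw [this] at s2
  have := s3.unique s2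
  simpa [Φ, cn] using this

end Pool.Agent.H.MP_b9c098_an
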