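import Mathlib

set_option autoImplicit false

namespace Pool.Agent.H.MP_b9c098_an
open scoped InnerProductSpace
open Cardinal
universe u

variable {H : Type u} [NormedAddCommGroup H] [InnerProductSpace ℂ H]

lemma pyth {I : Type*} (x : I → H) (o : Pairwise fun i j => ⟪x i, x j⟫_ℂ = 0) (s : Finset I) :
    ‖∑ i ∈ s, x i‖ ^ 2 = ∑ i ∈ s, ‖x i‖ ^ 2 := by
  classical
  induction s using Finset.induction_on with
  | empty => simp
  | insert a s ha ih =>
    rw [Finset.sum_insert ha, Finset.sum_insert ha, ← ih, sq, sq, sq]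
    refine norm_add_sq_eq_norm_sq_add_norm_sq_of_inner_eq_zero (𝕜 := ℂ) _ _ ?_
    rw [inner_sum]
    exact Finset.sum_eq_zero fun i hi => o (fun h => ha (h ▸ hi))

lemma pyth' {I : Type*} (x : I → H) (o : Pairwise fun i j => ⟪x i, x j⟫_ℂ = 0) (M : ℝ)
    (hx : ∀ i, ‖x i‖ ≤ M) (c : I → ℂ) (s : Finset I) :
    ‖∑ i ∈ s, c i • x i‖ ^ 2 ≤ M ^ 2 * ∑ i ∈ s, ‖c i‖ ^ 2 := by
  rw [pyth (fun i => c i • x i) (fun i j hij => by
    simp only [inner_smul_left, inner_smul_right, o hij, mul_zero]), Finset.mul_sum]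
  refine Finset.sum_le_sum fun i _ => ?_
  rw [norm_smul, mul_pow, mul_comm]
  exact mul_le_mul_of_nonneg_right (pow_le_pow_left₀ (norm_nonneg _) (hx i) 2) (by positivity)

lemma bessel {I : Type*} (v : I → H) (o : Pairwise fun i j => ⟪v i, v j⟫_ℂ = 0) (M : ℝ)
    (hv : ∀ i, ‖v i‖ ≤ M) (x : H) (s : Finset I) :
    ∑ i ∈ s, ‖⟪v i, x⟫_ℂ‖ ^ 2 ≤ M ^ 2 * ‖x‖ ^ 2 := by
  have h1 := pyth' v o M hv (fun i => ⟪v i, x⟫_ℂ) s
  set y := ∑ i ∈ s, ⟪v i, x⟫_ℂ • v i with hy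
  set σ := ∑ i ∈ s, ‖⟪v i, x⟫_ℂ‖ ^ 2 with hσ
  have h2 : ⟪y, x⟫_ℂ = (σ : ℂ) := by
    rw [hy, hσ, sum_inner]
    push_cast
    refine Finset.sum_congr rfl fun i _ => ?_
    rw [inner_smul_left, Complex.conj_mul']
  have h0 : 0 ≤ σ := Finset.sum_nonneg fun _ _ => by positivity
  have h3 : σ ≤ ‖y‖ * ‖x‖ := by
    have := norm_inner_le_norm (𝕜 := ℂ) y x
    rwa [h2, Complex.norm_real, Real.norm_of_nonneg h0] at this
  have h4 : σ ^ 2 ≤ (‖y‖ * ‖x‖) ^ 2 := pow_le_pow_left₀ h0 h3 2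
  rcases h0.eq_or_lt with h | h
  · rw [← h]; positivity
  · have h5 : ‖y‖ ^ 2 * ‖x‖ ^ 2 ≤ (M ^ 2 * σ) * ‖x‖ ^ 2 :=
      mul_le_mul_of_nonneg_right h1 (by positivity)
    refine le_of_mul_le_mul_left ?_ h
    nlinarith

lemma exR1 [CompleteSpace H] {I : Type*} (u v : I → H) (M : ℝ) (hM : 0 < M)
    (hu : ∀ i, ‖u i‖ ≤ M) (hv : ∀ i, ‖v i‖ ≤ M)
    (ou : Pairwise fun i j => ⟪u i, u j⟫_ℂ = 0) (ov : Pairwise fun i j => ⟪v i, v j⟫_ℂ = 0) :
    ∃ T : H →L[ℂ] H, ∀ x, HasSum (fun i => ⟪v i, x⟫_ℂ • u i) (T x) := by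
  have hs : ∀ x, Summable fun i => ⟪v i, x⟫_ℂ • u i := by
    intro x
    have h1 : Summable fun i => ‖⟪v i, x⟫_ℂ‖ ^ 2 :=
      summable_of_sum_le (fun _ => by positivity) (bessel v ov M hv x)
    rw [summable_iff_vanishing_norm] at h1 ⊢
    intro ε hε
    obtain ⟨s, hs⟩ := h1 ((ε / M) ^ 2) (by positivity)
    refine ⟨s, fun t ht => ?_⟩
    have h2 := hs t ht
    rw [Real.norm_of_nonneg (Finset.sum_nonneg fun _ _ => by positivity)] at h2
    have h3 := pyth' u ou M hu (fun i => ⟪v i, x⟫_ℂ) t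
    have h4 : M ^ 2 * ∑ i ∈ t, ‖⟪v i, x⟫_ℂ‖ ^ 2 < M ^ 2 * (ε / M) ^ 2 :=
      mul_lt_mul_of_pos_left h2 (by positivity)
    have h5 : M ^ 2 * (ε / M) ^ 2 = ε ^ 2 := by field_simp
    exact lt_of_pow_lt_pow_left₀ 2 hε.le (by linarith)
  let L : H →ₗ[ℂ] H :=
    { toFun := fun x => ∑' i, ⟪v i, x⟫_ℂ • u i
      map_add' := fun x y => by
        rw [← (hs x).tsum_add (hs y)]
        simp only [inner_add_right, add_smul]
      map_smul' := fun c x => by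
        rw [RingHom.id_apply, ← (hs x).tsum_const_smul c]
        simp only [inner_smul_right, mul_smul] }
  refine ⟨L.mkContinuous (M ^ 2) fun x => ?_, fun x => (hs x).hasSum⟩
  refine le_of_tendsto' ((hs x).hasSum.norm) fun s => ?_
  have h3 := pyth' u ou M hu (fun i => ⟪v i, x⟫_ℂ) s
  have h4 := mul_le_mul_of_nonneg_left (bessel v ov M hv x s) (by positivity : 0 ≤ M ^ 2)
  exact le_of_pow_le_pow_left₀ (n := 2) (by norm_num) (by positivity) (by nlinarith)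

def Pp (S : Set H) (x : H) : Prop := ∀ s ∈ S, ⟪s, x⟫_ℂ = 0

lemma ex_kappa [CompleteSpace H] (hH : ¬ FiniteDimensional ℂ H) :
    ∃ κ : Cardinal.{u}, ℵ₀ ≤ κ ∧ (∀ S : Set H, mk S < κ → ∃ x, ‖x‖ = 1 ∧ Pp S x) ∧
      ∀ (ι : Type u) (v : ι → H), Orthonormal ℂ v → mk ι ≤ κ := by
  obtain ⟨κ, ⟨S0, hS0, rfl⟩, hmin⟩ := Cardinal.lt_wf.has_min
    {c | ∃ S : Set H, (∀ x, Pp S x → x = 0) ∧ mk S = c}
    ⟨_, Set.univ, fun x hx => inner_self_eq_zero.mp (hx x trivial), rfl⟩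
  have hinf : ℵ₀ ≤ mk S0 := by
    by_contra hc
    rw [not_le, Cardinal.lt_aleph0_iff_set_finite] at hc
    apply hH
    haveI : FiniteDimensional ℂ (Submodule.span ℂ S0) := FiniteDimensional.span_of_finite ℂ hc
    have : Submodule.span ℂ S0 = ⊤ := by
      rw [← Submodule.orthogonal_eq_bot_iff, Submodule.eq_bot_iff]
      intro x hx
      exact hS0 x fun s hs => hx s (Submodule.subset_span hs)
    haveI : FiniteDimensional ℂ (⊤ : Submodule ℂ H) := this ▸ inferInstance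
    exact Submodule.topEquiv.finiteDimensional
  refine ⟨_, hinf, fun S hS => ?_, fun ι v hv => ?_⟩
  · by_contra hc
    refine hmin _ ⟨S, fun x hx => ?_, rfl⟩ hS
    by_contra hx0
    refine hc ⟨((‖x‖⁻¹ : ℝ) : ℂ) • x, ?_, fun s hs => ?_⟩
    · rw [norm_smul, Complex.norm_real, norm_inv, norm_norm,
        inv_mul_cancel₀ (norm_ne_zero_iff.mpr hx0)]
    · rw [inner_smul_right, hx s hs, mul_zero]
  · have h1 : (Set.univ : Set ι) = ⋃ s ∈ S0, {i | ⟪v i, s⟫_ℂ ≠ 0} := by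
      symm
      rw [Set.eq_univ_iff_forall]
      intro i
      by_contra hc
      simp only [Set.mem_iUnion, Set.mem_setOf_eq, not_exists, not_not] at hc
      have := hS0 (v i) fun s hs => by rw [inner_eq_zero_symm]; exact hc s hs
      exact hv.ne_zero i this
    rw [← Cardinal.mk_univ, h1]
    refine (Cardinal.mk_biUnion_le _ _).trans ?_
    refine le_trans (mul_le_mul_right ?_ _) (Cardinal.mul_aleph0_eq hinf).le
    refine ciSup_le' fun s => ?_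
    rw [Cardinal.le_aleph0_iff_set_countable]
    refine (hv.inner_products_summable (s : H)).countable_support.mono fun i hi => ?_
    simpa using hi

end Pool.Agent.H.MP_b9c098_an
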