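import Pool.Agent.H.MP_b9c098_an.C

set_option autoImplicit false

namespace Pool.Agent.H.MP_b9c098_an
open scoped InnerProductSpace
open Cardinal
universe u

variable {H : Type u} [NormedAddCommGroup H] [InnerProductSpace ℂ H] [CompleteSpace H]

structure Kp (H : Type u) [NormedAddCommGroup H] [InnerProductSpace ℂ H] (κ : Cardinal.{u}) :
    Prop where
  inf : ℵ₀ ≤ κ
  ex : ∀ S : Set H, Cardinal.mk S < κ → ∃ x, ‖x‖ = 1 ∧ Pp S x

variable {κ : Cardinal.{u}}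

omit [CompleteSpace H] in
lemma Kp.union (k : Kp H κ) {S T : Set H} (hS : Cardinal.mk S < κ) (hT : Cardinal.mk T < κ) : Cardinal.mk (S ∪ T : Set H) < κ :=
  (Cardinal.mk_union_le S T).trans_lt (Cardinal.add_lt_of_lt k.inf hS hT)

omit [CompleteSpace H] in
lemma Kp.fin (k : Kp H κ) {S : Set H} (hS : S.Finite) : Cardinal.mk S < κ :=
  (Cardinal.lt_aleph0_iff_set_finite.mpr hS).trans_le k.inf

omit [CompleteSpace H] in
lemma Kp.ins (k : Kp H κ) {S : Set H} (hS : Cardinal.mk S < κ) (a : H) : Cardinal.mk (insert a S : Set H) < κ := by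
  rw [Set.insert_eq]; exact k.union (k.fin (Set.finite_singleton a)) hS

omit [NormedAddCommGroup H] [InnerProductSpace ℂ H] [CompleteSpace H] in
lemma im_lt {S : Set H} (hS : Cardinal.mk S < κ) (f : H → H) : Cardinal.mk (f '' S) < κ :=
  Cardinal.mk_image_le.trans_lt hS

omit [CompleteSpace H] in
lemma Pp.left {S T : Set H} {x : H} (h : Pp (S ∪ T) x) : Pp S x := fun s hs => h s (Or.inl hs)
omit [CompleteSpace H] in
lemma Pp.right {S T : Set H} {x : H} (h : Pp (S ∪ T) x) : Pp T x := fun s hs => h s (Or.inr hs)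
omit [CompleteSpace H] in
lemma Pp.hd {S : Set H} {a x : H} (h : Pp (insert a S) x) : ⟪a, x⟫_ℂ = 0 := h a (Or.inl rfl)
omit [CompleteSpace H] in
lemma Pp.tl {S : Set H} {a x : H} (h : Pp (insert a S) x) : Pp S x := fun s hs => h s (Or.inr hs)
lemma Pp.adj {S : Set H} {x : H} {T : H →L[ℂ] H} (h : Pp (T.adjoint '' S) x) : Pp S (T x) :=
  fun s hs => by rw [← ContinuousLinearMap.adjoint_inner_left]; exact h _ ⟨s, hs, rfl⟩
omit [CompleteSpace H] in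
lemma Pp.smul {S : Set H} {x : H} (h : Pp S x) (c : ℂ) : Pp S (c • x) :=
  fun s hs => by rw [inner_smul_right, h s hs, mul_zero]
omit [CompleteSpace H] in
lemma Pp.add {S : Set H} {x y : H} (h : Pp S x) (h' : Pp S y) : Pp S (x + y) :=
  fun s hs => by rw [inner_add_right, h s hs, h' s hs, add_zero]
omit [CompleteSpace H] in
lemma Pp.sub {S : Set H} {x y : H} (h : Pp S x) (h' : Pp S y) : Pp S (x - y) :=
  fun s hs => by rw [inner_sub_right, h s hs, h' s hs, sub_zero]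

def NBB (κ : Cardinal.{u}) (E : H →L[ℂ] H) : Prop :=
  ∀ S : Set H, Cardinal.mk S < κ → ∀ η : ℝ, 0 < η → ∃ x, ‖x‖ = 1 ∧ Pp S x ∧ ‖E x‖ ≤ η

def Dist (κ : Cardinal.{u}) (E : H →L[ℂ] H) (δ : ℝ) : Prop :=
  ∀ S : Set H, Cardinal.mk S < κ → ∃ e, ‖e‖ = 1 ∧ Pp S e ∧ ∀ c : ℂ, δ ≤ ‖e - c • E e‖

omit [CompleteSpace H] in
lemma nrm1 {x : H} (hx : x ≠ 0) : ‖((‖x‖⁻¹ : ℝ) : ℂ) • x‖ = 1 := by
  rw [norm_smul, Complex.norm_real, norm_inv, norm_norm, inv_mul_cancel₀ (norm_ne_zero_iff.mpr hx)]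

omit [CompleteSpace H] in
lemma L1 (k : Kp H κ) (E : H →L[ℂ] H) (h : NBB κ E) : Dist κ E (1/4) := by
  intro S hS
  obtain ⟨u, hu, huS⟩ := k.ex S hS
  by_cases h0 : E u = 0
  · exact ⟨u, hu, huS, fun c => by rw [h0, smul_zero, sub_zero, hu]; norm_num⟩
  have hp : 0 < ‖E u‖ := norm_pos_iff.mpr h0
  obtain ⟨v, hv, hvS, hEv⟩ := h _ (k.ins (k.ins hS (E u)) u) (‖E u‖ / 8) (by positivity)
  have a1 : ⟪v, u⟫_ℂ = 0 := by rw [inner_eq_zero_symm]; exact hvS.hd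
  have a2 : ⟪v, E u⟫_ℂ = 0 := by rw [inner_eq_zero_symm]; exact hvS.tl.hd
  have a3 : ⟪v, v⟫_ℂ = 1 := by rw [inner_self_eq_norm_sq_to_K, hv]; simp
  have n2 : ‖u + v‖ ≤ 2 := (norm_add_le _ _).trans (by rw [hu, hv]; norm_num)
  have key : ∀ c : ℂ, 1/2 ≤ ‖(u + v) - c • E (u + v)‖ := by
    intro c
    rcases le_total (‖c‖ * ‖E u‖) 4 with ht | ht
    · have b1 : ⟪v, (u + v) - c • E (u + v)⟫_ℂ = 1 - c * ⟪v, E v⟫_ℂ := by
        rw [map_add, inner_sub_right, inner_smul_right, inner_add_right, inner_add_right, a1, a2,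
          a3]
        ring
      have b2 := norm_inner_le_norm (𝕜 := ℂ) v ((u + v) - c • E (u + v))
      rw [b1, hv, one_mul] at b2
      have b3 := norm_inner_le_norm (𝕜 := ℂ) v (E v)
      rw [hv, one_mul] at b3
      have b4 : ‖c * ⟪v, E v⟫_ℂ‖ ≤ 1/2 := by
        rw [norm_mul]
        have := mul_le_mul_of_nonneg_left (b3.trans hEv) (norm_nonneg c)
        linarith
      have b5 := norm_sub_norm_le (1:ℂ) (c * ⟪v, E v⟫_ℂ)
      rw [norm_one] at b5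
      linarith
    · have b1 : ‖E u‖ - ‖E v‖ ≤ ‖E (u + v)‖ := by
        have := norm_sub_norm_le (E u) (-E v)
        rwa [norm_neg, sub_neg_eq_add, ← map_add] at this
      have b2 := norm_sub_norm_le (c • E (u + v)) (u + v)
      rw [norm_sub_rev, norm_smul] at b2
      have b3 : ‖c‖ * (7/8 * ‖E u‖) ≤ ‖c‖ * ‖E (u + v)‖ :=
        mul_le_mul_of_nonneg_left (by linarith) (norm_nonneg c)
      linarith
  have hne : u + v ≠ 0 := by
    intro h0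
    have := key 0
    rw [h0] at this
    norm_num at this
  have hpos : 0 < ‖u + v‖ := norm_pos_iff.mpr hne
  refine ⟨_, nrm1 hne, (huS.add hvS.tl.tl).smul _, fun c => ?_⟩
  rw [map_smul, smul_comm c, ← smul_sub, norm_smul, Complex.norm_real, norm_inv, norm_norm,
    le_inv_mul_iff₀ hpos]
  have := key c
  linarith

omit [CompleteSpace H] in
lemma L2a (E : H →L[ℂ] H) (η : ℝ) (hη : 0 < η) (h : ∀ δ > 0, ¬ Dist κ E δ) :
    ∃ S : Set H, Cardinal.mk S < κ ∧ ∀ e, ‖e‖ = 1 → Pp S e → ∃ m : ℂ, ‖E e - m • e‖ ≤ η := by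
  have hE : 0 < ‖E‖ + 1 := by positivity
  have h1 := h (min (1/2) (η / (2 * (‖E‖ + 1)))) (by positivity)
  unfold Dist at h1
  push Not at h1
  obtain ⟨S, hS, h1⟩ := h1
  refine ⟨S, hS, fun e he hSe => ?_⟩
  obtain ⟨c, hc⟩ := h1 e he hSe
  have c1 := hc.trans_le (min_le_left _ _)
  have c2 := hc.trans_le (min_le_right _ _)
  have b1 := norm_sub_norm_le e (c • E e)
  rw [he, norm_smul] at b1
  have b2 : ‖E e‖ ≤ ‖E‖ := by simpa [he] using E.le_opNorm e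
  have b3 : ‖c‖ * ‖E e‖ ≤ ‖c‖ * (‖E‖ + 1) := mul_le_mul_of_nonneg_left (by linarith) (norm_nonneg c)
  have hc0 : 0 < ‖c‖ := by
    by_contra hh
    have : ‖c‖ = 0 := le_antisymm (not_lt.mp hh) (norm_nonneg c)
    rw [this] at b1
    linarith
  have hc1 : c ≠ 0 := norm_pos_iff.mp hc0
  refine ⟨c⁻¹, ?_⟩
  have : E e - c⁻¹ • e = -(c⁻¹ • (e - c • E e)) := by
    rw [smul_sub, smul_smul, inv_mul_cancel₀ hc1, one_smul]; abel
  rw [this, norm_neg, norm_smul, norm_inv, inv_mul_le_iff₀ hc0]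
  rw [lt_div_iff₀ (by positivity)] at c2
  have b4 : 1/2 ≤ ‖c‖ * (‖E‖ + 1) := by linarith
  refine le_of_mul_le_mul_right ?_ hE
  nlinarith

omit [CompleteSpace H] in
lemma L2b (E : H →L[ℂ] H) (η : ℝ) (S : Set H)
    (h : ∀ e, ‖e‖ = 1 → Pp S e → ∃ m : ℂ, ‖E e - m • e‖ ≤ η) (x y : H) (hx : Pp S x)
    (hxy : ⟪y, x⟫_ℂ = 0) : ‖⟪y, E x⟫_ℂ‖ ≤ η * ‖x‖ * ‖y‖ := by
  by_cases h0 : x = 0
  · simp [h0]
  obtain ⟨m, hm⟩ := h _ (nrm1 h0) (hx.smul _)
  have hp : 0 < ‖x‖ := norm_pos_iff.mpr h0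
  rw [map_smul, smul_comm m, ← smul_sub, norm_smul, Complex.norm_real, norm_inv, norm_norm,
    inv_mul_le_iff₀ hp] at hm
  have : ⟪y, E x⟫_ℂ = ⟪y, E x - m • x⟫_ℂ := by
    rw [inner_sub_right, inner_smul_right, hxy]; ring
  rw [this]
  refine (norm_inner_le_norm _ _).trans ?_
  nlinarith [norm_nonneg y]

omit [CompleteSpace H] in
lemma L2c (E : H →L[ℂ] H) (η : ℝ) (hη : 0 < η) (S : Set H)
    (h : ∀ e, ‖e‖ = 1 → Pp S e → ∃ m : ℂ, ‖E e - m • e‖ ≤ η) (e f : H) (he : ‖e‖ = 1)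
    (hf : ‖f‖ = 1) (hSe : Pp S e) (hSf : Pp S f) (hef : ⟪e, f⟫_ℂ = 0) :
    ‖⟪e, E e⟫_ℂ - ⟪f, E f⟫_ℂ‖ ≤ 6 * η := by
  have hfe : ⟪f, e⟫_ℂ = 0 := inner_eq_zero_symm.mp hef
  have a1 := L2b E η S h e f hSe hfe
  have a2 := L2b E η S h f e hSf hef
  have a3 := L2b E η S h (e + f) (e - f) (hSe.add hSf) (by
    rw [inner_sub_left, inner_add_right, inner_add_right, hef, hfe, inner_self_eq_norm_sq_to_K,
      inner_self_eq_norm_sq_to_K, he, hf]; ring)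
  have n1 : ‖e + f‖ ≤ 2 := (norm_add_le _ _).trans (by rw [he, hf]; norm_num)
  have n2 : ‖e - f‖ ≤ 2 := (norm_sub_le _ _).trans (by rw [he, hf]; norm_num)
  have n3 : ‖e + f‖ * ‖e - f‖ ≤ 2 * 2 := mul_le_mul n1 n2 (norm_nonneg _) (by norm_num)
  have : ⟪e, E e⟫_ℂ - ⟪f, E f⟫_ℂ = ⟪e - f, E (e + f)⟫_ℂ - ⟪e, E f⟫_ℂ + ⟪f, E e⟫_ℂ := by
    rw [map_add, inner_sub_left, inner_add_right, inner_add_right]; ring
  rw [this]
  rw [he, hf] at a1 a2
  refine (norm_add_le _ _).trans ?_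
  have := norm_sub_le ⟪e - f, E (e + f)⟫_ℂ ⟪e, E f⟫_ℂ
  nlinarith

omit [CompleteSpace H] in
lemma L2d (E : H →L[ℂ] H) (η : ℝ) (S : Set H)
    (h : ∀ e, ‖e‖ = 1 → Pp S e → ∃ m : ℂ, ‖E e - m • e‖ ≤ η) (e : H) (he : ‖e‖ = 1)
    (hSe : Pp S e) : ‖E e - ⟪e, E e⟫_ℂ • e‖ ≤ 2 * η := by
  obtain ⟨m, hm⟩ := h e he hSe
  have a3 : ⟪e, e⟫_ℂ = 1 := by rw [inner_self_eq_norm_sq_to_K, he]; simp
  have : E e - ⟪e, E e⟫_ℂ • e = (E e - m • e) - ⟪e, E e - m • e⟫_ℂ • e := by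
    rw [inner_sub_right, inner_smul_right, a3, sub_smul, mul_one]; abel
  rw [this]
  refine (norm_sub_le _ _).trans ?_
  have := norm_inner_le_norm (𝕜 := ℂ) e (E e - m • e)
  rw [norm_smul, he] at *
  linarith

omit [CompleteSpace H] in
lemma L2 (k : Kp H κ) (E : H →L[ℂ] H) (h : ∀ δ > 0, ¬ Dist κ E δ) :
    ∃ μ : ℂ, ∀ η > 0, ∃ S : Set H, Cardinal.mk S < κ ∧ ∀ e, ‖e‖ = 1 → Pp S e → ‖E e - μ • e‖ ≤ η := by
  choose S hS hm using fun n : ℕ => L2a E (1 / ((n:ℝ) + 1)) (by positivity) h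
  choose e he hSe using fun n : ℕ => k.ex (S n) (hS n)
  have hb : ∀ n, ⟪e n, E (e n)⟫_ℂ ∈ Metric.closedBall (0:ℂ) ‖E‖ := by
    intro n
    rw [mem_closedBall_zero_iff]
    refine (norm_inner_le_norm _ _).trans ?_
    simpa [he n] using E.le_opNorm (e n)
  obtain ⟨μ, -, φ, hφ, hlim⟩ := (isCompact_closedBall (0:ℂ) ‖E‖).tendsto_subseq hb
  refine ⟨μ, fun η hη => ?_⟩
  have t1 := (Metric.tendsto_nhds.mp hlim) (η / 2) (by positivity)
  have t2 := (tendsto_one_div_add_atTop_nhds_zero_nat (𝕜 := ℝ)).comp hφ.tendsto_atTop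
  have t3 := t2.eventually (gt_mem_nhds (by positivity : (0:ℝ) < η / 16))
  obtain ⟨n, h1, h2⟩ := (t1.and t3).exists
  simp only [Function.comp] at h1 h2
  refine ⟨_, k.ins (hS (φ n)) (e (φ n)), fun x hx hSx => ?_⟩
  have a1 := L2d E _ _ (hm (φ n)) x hx hSx.tl
  have a2 := L2c E _ (by positivity) _ (hm (φ n)) (e (φ n)) x (he _) hx (hSe _) hSx.tl hSx.hd
  rw [dist_eq_norm] at h1
  have : E x - μ • x = (E x - ⟪x, E x⟫_ℂ • x) +
      ((⟪e (φ n), E (e (φ n))⟫_ℂ - μ) - (⟪e (φ n), E (e (φ n))⟫_ℂ - ⟪x, E x⟫_ℂ)) • x := by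
    rw [sub_smul, sub_smul, sub_smul]; abel
  rw [this]
  refine (norm_add_le _ _).trans ?_
  rw [norm_smul, hx, mul_one]
  have := norm_sub_le (⟪e (φ n), E (e (φ n))⟫_ℂ - μ) (⟪e (φ n), E (e (φ n))⟫_ℂ - ⟪x, E x⟫_ℂ)
  linarith

omit [CompleteSpace H] in
lemma notNBB (E : H →L[ℂ] H) (h : ¬ NBB κ E) :
    ∃ S : Set H, Cardinal.mk S < κ ∧ ∃ η > 0, ∀ x, Pp S x → η * ‖x‖ ≤ ‖E x‖ := by
  unfold NBB at h
  push Not at h
  obtain ⟨S, hS, η, hη, h⟩ := h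
  refine ⟨S, hS, η, hη, fun x hx => ?_⟩
  by_cases h0 : x = 0
  · simp [h0]
  have := h _ (nrm1 h0) (hx.smul _)
  rw [map_smul, norm_smul, Complex.norm_real, norm_inv, norm_norm,
    lt_inv_mul_iff₀ (norm_pos_iff.mpr h0)] at this
  linarith

lemma L3 (k : Kp H κ) (A Ai : H →L[ℂ] H) (hA : A * Ai = 1) (hA' : Ai * A = 1) :
    ∃ l : ℂ, l ≠ 0 ∧ ∃ δ > 0, Dist κ (l⁻¹ • A - l • Ai) δ := by
  have hAx : ∀ x, A (Ai x) = x := fun x => by
    rw [← ContinuousLinearMap.mul_apply, hA]; rfl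
  by_cases h : ∃ δ > 0, Dist κ (A - Ai) δ
  · exact ⟨1, one_ne_zero, by simpa using h⟩
  push Not at h
  obtain ⟨μ, hμ⟩ := L2 k _ h
  obtain ⟨α, hα⟩ : ∃ α : ℂ, α ^ 2 - μ * α - 1 = 0 := by
    obtain ⟨z, hz⟩ := IsAlgClosed.exists_pow_nat_eq (μ ^ 2 + 4) (n := 2) (by norm_num)
    exact ⟨(μ + z) / 2, by linear_combination (1/4) * hz⟩
  have key : NBB κ (A - α • 1) ∨ NBB κ (A - (μ - α) • 1) := by
    by_contra hc
    rw [not_or] at hc
    obtain ⟨S1, hS1, η1, h1, g1⟩ := notNBB _ hc.1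
    obtain ⟨S2, hS2, η2, h2, g2⟩ := notNBB _ hc.2
    have hp : 0 < ‖A‖ + 1 := by positivity
    obtain ⟨S3, hS3, g3⟩ := hμ (η1 * η2 / (2 * (‖A‖ + 1))) (by positivity)
    obtain ⟨x, hx, hSx⟩ := k.ex _ (k.union (k.union hS2 hS3)
      (im_lt hS1 (A - (μ - α) • (1 : H →L[ℂ] H)).adjoint))
    have a1 := g1 _ hSx.right.adj
    have a2 := g2 _ hSx.left.left
    have a3 := g3 _ hx hSx.left.right
    have e : (A - α • (1 : H →L[ℂ] H)) ((A - (μ - α) • (1 : H →L[ℂ] H)) x) =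
        A ((A - Ai) x - μ • x) := by
      simp only [ContinuousLinearMap.sub_apply, ContinuousLinearMap.smul_apply,
        ContinuousLinearMap.one_apply, map_sub, map_smul, hAx]
      have : x = (α ^ 2 - μ * α) • x := by
        rw [show α ^ 2 - μ * α = 1 by linear_combination hα, one_smul]
      linear_combination (norm := module) this
    rw [e] at a1
    have a4 := A.le_opNorm ((A - Ai) x - μ • x)
    have a5 : ‖A‖ * ‖(A - Ai) x - μ • x‖ ≤ (‖A‖ + 1) * (η1 * η2 / (2 * (‖A‖ + 1))) :=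
      mul_le_mul (by linarith) a3 (norm_nonneg _) hp.le
    have a6 : (‖A‖ + 1) * (η1 * η2 / (2 * (‖A‖ + 1))) = η1 * η2 / 2 := by field_simp
    rw [hx, mul_one] at a2
    have a7 := mul_le_mul_of_nonneg_left a2 h1.le
    have a8 : 0 < η1 * η2 := by positivity
    linarith
  have hAx' : ∀ x, Ai (A x) = x := fun x => by
    rw [← ContinuousLinearMap.mul_apply, hA']; rfl
  have fin : ∀ l : ℂ, l ≠ 0 → NBB κ (A - l • 1) →
      ∃ δ > 0, Dist κ (l⁻¹ • A - l • Ai) δ := by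
    intro l hl hN
    refine ⟨1/4, by norm_num, L1 k _ fun S hS η hη => ?_⟩
    have hp : 0 < ‖l⁻¹ • (1 : H →L[ℂ] H) + Ai‖ + 1 := by positivity
    obtain ⟨x, hx, hSx, hb⟩ := hN S hS (η / (‖l⁻¹ • (1 : H →L[ℂ] H) + Ai‖ + 1)) (by positivity)
    refine ⟨x, hx, hSx, ?_⟩
    have e : (l⁻¹ • A - l • Ai) x = (l⁻¹ • (1 : H →L[ℂ] H) + Ai) ((A - l • 1) x) := by
      simp only [ContinuousLinearMap.sub_apply, ContinuousLinearMap.smul_apply,
        ContinuousLinearMap.add_apply, ContinuousLinearMap.one_apply, map_sub, map_smul, hAx',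
        smul_add, smul_smul, mul_inv_cancel₀ hl, one_smul]
      abel
    rw [e]
    refine ((l⁻¹ • (1 : H →L[ℂ] H) + Ai).le_opNorm _).trans ?_
    rw [le_div_iff₀ hp] at hb
    nlinarith [norm_nonneg ((A - l • (1 : H →L[ℂ] H)) x)]
  rcases key with hk | hk
  · have : α ≠ 0 := by rintro rfl; norm_num at hα
    exact ⟨α, this, fin α this hk⟩
  · have : μ - α ≠ 0 := by
      intro h0
      have : (1:ℂ) = 0 := by linear_combination -hα - α * h0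
      exact one_ne_zero this
    exact ⟨_, this, fin _ this hk⟩

end Pool.Agent.H.MP_b9c098_an
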