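import Pool.Agent.H.MP_b9c098_an.D
import Pool.Agent.H.MP_b9c098_an.B

set_option autoImplicit false

namespace Pool.Agent.H.MP_b9c098_an
open scoped InnerProductSpace
open Cardinal
universe u

variable {H : Type u} [NormedAddCommGroup H] [InnerProductSpace ℂ H] [CompleteSpace H]
variable {κ : Cardinal.{u}}

def Good (C Ci : H →L[ℂ] H) (δ : ℝ) (p : H × H) : Prop :=
  ‖p.1‖ = 1 ∧ ‖p.2‖ ≤ δ⁻¹ ∧ ⟪p.2, p.1⟫_ℂ = 1 ∧ ⟪p.2, C p.1⟫_ℂ = ⟪p.2, Ci p.1⟫_ℂ

noncomputable def vc (C Ci : H →L[ℂ] H) (p : H × H) : Fin 4 → H :=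
  ![p.1, Ci p.1, p.2, C.adjoint p.2]

lemma good_ex (k : Kp H κ) (C Ci : H →L[ℂ] H) (δ : ℝ) (hδ : 0 < δ) (h : Dist κ (C - Ci) δ)
    (S : Set H) (hS : Cardinal.mk S < κ) : ∃ p, Good C Ci δ p ∧ Pp S p.1 ∧ Pp S p.2 := by
  obtain ⟨e, he, hSe, hd⟩ := h _ (k.union hS (im_lt hS (C - Ci).adjoint))
  set w := (C - Ci) e with hw
  set c : ℂ := ⟪w, e⟫_ℂ / ⟪w, w⟫_ℂ with hc
  set y := e - c • w with hy
  have h1 : ⟪w, y⟫_ℂ = 0 := by
    by_cases h0 : w = 0
    · simp [h0]
    · have : ⟪w, w⟫_ℂ ≠ 0 := inner_self_ne_zero.mpr h0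
      rw [hy, inner_sub_right, inner_smul_right, hc]
      field_simp
      ring
  have h1' : ⟪y, w⟫_ℂ = 0 := inner_eq_zero_symm.mp h1
  have h2 : δ ≤ ‖y‖ := hd c
  have hp : 0 < ‖y‖ := hδ.trans_le h2
  have h3 : ⟪y, e⟫_ℂ = ((‖y‖ ^ 2 : ℝ) : ℂ) := by
    have : e = y + c • w := by rw [hy]; abel
    conv_lhs => rw [this, inner_add_right, inner_smul_right, h1', inner_self_eq_norm_sq_to_K]
    simp
  have hSy : Pp S y := hSe.left.sub (hSe.right.adj.smul c)
  refine ⟨(e, (((‖y‖ ^ 2)⁻¹ : ℝ) : ℂ) • y), ⟨he, ?_, ?_, ?_⟩, hSe.left, hSy.smul _⟩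
  · simp only [norm_smul, Complex.norm_real, norm_inv, norm_pow, norm_norm]
    have : (‖y‖ ^ 2)⁻¹ * ‖y‖ = ‖y‖⁻¹ := by field_simp
    rw [this]
    exact inv_anti₀ hδ h2
  · simp only [inner_smul_left, Complex.conj_ofReal, h3]
    rw [← Complex.ofReal_mul, inv_mul_cancel₀ (by positivity), Complex.ofReal_one]
  · simp only [inner_smul_left]
    congr 1
    rw [hw, ContinuousLinearMap.sub_apply, inner_sub_right, sub_eq_zero] at h1'
    exact h1'

lemma zorn_fam (k : Kp H κ) (C Ci : H →L[ℂ] H) (δ : ℝ) (hδ : 0 < δ) (h : Dist κ (C - Ci) δ) :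
    ∃ F : Set (H × H), κ ≤ Cardinal.mk F ∧ (∀ p ∈ F, Good C Ci δ p) ∧
      F.Pairwise fun p q => ∀ a b, ⟪vc C Ci p a, vc C Ci q b⟫_ℂ = 0 := by
  obtain ⟨F, hF⟩ := zorn_subset {F : Set (H × H) | (∀ p ∈ F, Good C Ci δ p) ∧
      F.Pairwise fun p q => ∀ a b, ⟪vc C Ci p a, vc C Ci q b⟫_ℂ = 0} (by
    intro c hc hch
    refine ⟨⋃₀ c, ⟨?_, ?_⟩, fun s hs => Set.subset_sUnion_of_mem hs⟩
    · rintro p ⟨s, hs, hp⟩
      exact (hc hs).1 p hp
    · exact (Set.pairwise_sUnion hch.directedOn).mpr fun s hs => (hc hs).2)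
  refine ⟨F, ?_, hF.prop.1, hF.prop.2⟩
  by_contra hlt
  rw [not_le] at hlt
  have im : ∀ a : Fin 4, Cardinal.mk ((fun p => vc C Ci p a) '' F) < κ := fun a =>
    Cardinal.mk_image_le.trans_lt hlt
  set S0 : Set H := (fun p => vc C Ci p 0) '' F ∪ (fun p => vc C Ci p 1) '' F ∪
    (fun p => vc C Ci p 2) '' F ∪ (fun p => vc C Ci p 3) '' F with hS0
  have h0 : Cardinal.mk S0 < κ := k.union (k.union (k.union (im 0) (im 1)) (im 2)) (im 3)
  have hm : ∀ q ∈ F, ∀ a, vc C Ci q a ∈ S0 := by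
    intro q hq a
    fin_cases a
    · exact Or.inl (Or.inl (Or.inl ⟨q, hq, rfl⟩))
    · exact Or.inl (Or.inl (Or.inr ⟨q, hq, rfl⟩))
    · exact Or.inl (Or.inr ⟨q, hq, rfl⟩)
    · exact Or.inr ⟨q, hq, rfl⟩
  obtain ⟨p, hp, h1, h2⟩ := good_ex k C Ci δ hδ h _
    (k.union (k.union h0 (im_lt h0 Ci.adjoint)) (im_lt h0 C.adjoint.adjoint))
  have hP : ∀ b, Pp S0 (vc C Ci p b) := by
    intro b
    fin_cases b
    · exact h1.left.left
    · exact h1.left.right.adj
    · exact h2.left.left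
    · exact h2.right.adj
  have hin : insert p F ∈ {F : Set (H × H) | (∀ p ∈ F, Good C Ci δ p) ∧
      F.Pairwise fun p q => ∀ a b, ⟪vc C Ci p a, vc C Ci q b⟫_ℂ = 0} := by
    refine ⟨?_, hF.prop.2.insert fun q hq _ => ⟨fun a b => ?_, fun a b => ?_⟩⟩
    · rintro q (rfl | hq)
      · exact hp
      · exact hF.prop.1 q hq
    · rw [inner_eq_zero_symm]; exact hP a _ (hm q hq b)
    · exact hP b _ (hm q hq a)
  have hpF : p ∈ F := hF.le_of_ge hin (Set.subset_insert p F) (Set.mem_insert p F)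
  have := hP 0 _ (hm p hpF 0)
  have h3 : p.1 = 0 := inner_self_eq_zero.mp this
  have := hp.1
  rw [h3, norm_zero] at this
  exact zero_ne_one this

omit [CompleteSpace H] in
lemma loc1 {I : Type*} (u v : I → H) (T : H →L[ℂ] H)
    (hT : ∀ x, HasSum (fun i => ⟪v i, x⟫_ℂ • u i) (T x)) (i : I) (x : H)
    (hx : ∀ j, j ≠ i → ⟪v j, x⟫_ℂ = 0) : T x = ⟪v i, x⟫_ℂ • u i :=
  (hT x).unique (hasSum_single i fun j hj => by rw [hx j hj, zero_smul])

omit [CompleteSpace H] in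
lemma loc2 {I : Type*} (u v : I → H) (T : H →L[ℂ] H)
    (hT : ∀ x, HasSum (fun i => ⟪v i, x⟫_ℂ • u i) (T x)) (i : I) (y x : H)
    (hy : ∀ j, j ≠ i → ⟪y, u j⟫_ℂ = 0) : ⟪y, T x⟫_ℂ = ⟪v i, x⟫_ℂ * ⟪y, u i⟫_ℂ := by
  have h := (hT x).mapL (innerSL ℂ y)
  simp only [innerSL_apply_apply, inner_smul_right] at h
  exact h.unique (hasSum_single i fun j hj => by rw [hy j hj, mul_zero])

lemma exJ {I : Type*} (C Ci : H →L[ℂ] H) (hC : C * Ci = 1) (δ : ℝ) (hδ : 0 < δ) (p : I → H × H)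
    (hp : ∀ i, Good C Ci δ (p i))
    (ho : Pairwise fun i j => ∀ a b, ⟪vc C Ci (p i) a, vc C Ci (p j) b⟫_ℂ = 0)
    (ε : I → ℂ) (hε : ∀ i, ε i = 1 ∨ ε i = -1) :
    ∃ J : H →L[ℂ] H, J * J = 1 ∧ (∀ i, C (J (p i).1) = ε i • (p i).1) ∧
      ∀ i x, ⟪(p i).2, C (J x)⟫_ℂ = ε i * ⟪(p i).2, x⟫_ℂ := by
  classical
  have hCx : ∀ x, C (Ci x) = x := fun x => by
    rw [← ContinuousLinearMap.mul_apply, hC]; rfl
  let s : I → ℂ := fun i => ⟪(p i).2, Ci (p i).1⟫_ℂ
  have hη : ∀ i, ∃ η : ℂ, (η = 1 ∨ η = -1) ∧ 1 ≤ ‖1 - η * s i‖ := by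
    intro i
    by_cases h : 1 ≤ ‖1 - 1 * s i‖
    · exact ⟨1, Or.inl rfl, h⟩
    · refine ⟨-1, Or.inr rfl, ?_⟩
      have := norm_add_le (1 - 1 * s i) (1 - (-1) * s i)
      rw [show 1 - 1 * s i + (1 - (-1) * s i) = 2 by ring] at this
      simp only [Complex.norm_ofNat] at this
      linarith
  choose η hη1 hη2 using hη
  have hηc : ∀ i, (starRingEnd ℂ) (η i) = η i := fun i => by rcases hη1 i with h | h <;> simp [h]
  have hηn : ∀ i, ‖η i‖ = 1 := fun i => by rcases hη1 i with h | h <;> simp [h]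
  have hηs : ∀ i, η i * η i = 1 := fun i => by rcases hη1 i with h | h <;> simp [h]
  let r : I → H := fun i => vc C Ci (p i) 0 - η i • vc C Ci (p i) 1
  let r' : I → H := fun i => vc C Ci (p i) 2 - η i • vc C Ci (p i) 3
  let d : I → ℂ := fun i => 1 - η i * s i
  have hd : ∀ i, d i ≠ 0 := fun i h => by
    have := hη2 i
    change 1 ≤ ‖d i‖ at this
    rw [h, norm_zero] at this
    norm_num at this
  let v : I → H := fun i => (starRingEnd ℂ) (2 * d i)⁻¹ • r' i
  have hv : ∀ i x, ⟪v i, x⟫_ℂ = (2 * d i)⁻¹ * ⟪r' i, x⟫_ℂ := fun i x => by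
    simp only [v, inner_smul_left, Complex.conj_conj]
  have i20 : ∀ i, ⟪vc C Ci (p i) 2, vc C Ci (p i) 0⟫_ℂ = 1 := fun i => (hp i).2.2.1
  have i21 : ∀ i, ⟪vc C Ci (p i) 2, vc C Ci (p i) 1⟫_ℂ = s i := fun i => rfl
  have i3 : ∀ i x, ⟪vc C Ci (p i) 3, x⟫_ℂ = ⟪(p i).2, C x⟫_ℂ := fun i x =>
    ContinuousLinearMap.adjoint_inner_left _ _ _
  have i30 : ∀ i, ⟪vc C Ci (p i) 3, vc C Ci (p i) 0⟫_ℂ = s i := fun i => by
    rw [i3]; exact (hp i).2.2.2
  have i31 : ∀ i, ⟪vc C Ci (p i) 3, vc C Ci (p i) 1⟫_ℂ = 1 := fun i => by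
    rw [i3]
    change ⟪(p i).2, C (Ci (p i).1)⟫_ℂ = 1
    rw [hCx]; exact (hp i).2.2.1
  have hM : 0 < (1 + δ⁻¹) * (1 + ‖C‖ + ‖Ci‖) := by positivity
  have hδ' : 0 < δ⁻¹ := by positivity
  obtain ⟨ρ, hρ⟩ := exR1 r v _ hM (fun i => by
      refine (norm_sub_le _ _).trans ?_
      rw [norm_smul, hηn, one_mul]
      have a1 : ‖vc C Ci (p i) 0‖ = 1 := (hp i).1
      have a2 : ‖vc C Ci (p i) 1‖ ≤ ‖Ci‖ := by
        have := Ci.le_opNorm (p i).1
        rw [(hp i).1, mul_one] at this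
        exact this
      nlinarith [norm_nonneg C, norm_nonneg Ci])
    (fun i => by
      have a0 : ‖(starRingEnd ℂ) (2 * d i)⁻¹‖ ≤ 1 := by
        rw [Complex.norm_conj, norm_inv, norm_mul]
        refine inv_le_one_of_one_le₀ ?_
        have := hη2 i
        change 1 ≤ ‖d i‖ at this
        simp only [Complex.norm_ofNat]
        linarith
      have a1 : ‖vc C Ci (p i) 2‖ ≤ δ⁻¹ := (hp i).2.1
      have a2 : ‖vc C Ci (p i) 3‖ ≤ ‖C‖ * δ⁻¹ := by
        have := C.adjoint.le_opNorm (p i).2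
        rw [LinearIsometryEquiv.norm_map] at this
        exact this.trans (mul_le_mul_of_nonneg_left (hp i).2.1 (norm_nonneg _))
      have a3 : ‖r' i‖ ≤ δ⁻¹ + ‖C‖ * δ⁻¹ := by
        refine (norm_sub_le _ _).trans ?_
        rw [norm_smul, hηn, one_mul]
        linarith
      simp only [v, norm_smul]
      nlinarith [norm_nonneg C, norm_nonneg Ci, norm_nonneg (r' i)])
    (fun i j hij => by
      simp only [r, inner_sub_left, inner_sub_right, inner_smul_left, inner_smul_right, ho hij]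
      ring)
    (fun i j hij => by
      simp only [v, r', inner_sub_left, inner_sub_right, inner_smul_left, inner_smul_right, ho hij]
      ring)
  have ρr : ∀ i, ρ (r i) = r i := by
    intro i
    rw [loc1 r v ρ hρ i _ (fun j hj => by
      simp only [hv, r, r', inner_sub_left, inner_sub_right, inner_smul_left, inner_smul_right,
        ho hj]
      ring), hv]
    have : ⟪r' i, r i⟫_ℂ = 2 * d i := by
      simp only [r, r', d, inner_sub_left, inner_sub_right, inner_smul_left, inner_smul_right,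
        i20, i21, i30, i31, hηc]
      linear_combination hηs i
    rw [this, inv_mul_cancel₀ (mul_ne_zero two_ne_zero (hd i)), one_smul]
  have ρρ : ∀ x, ρ (ρ x) = ρ x := by
    intro x
    have := (hρ x).mapL ρ
    simp only [map_smul, ρr] at this
    exact this.unique (hρ x)
  have ρe : ∀ i, (2:ℂ) • ρ (vc C Ci (p i) 0) = r i := by
    intro i
    rw [loc1 r v ρ hρ i _ (fun j hj => by
      simp only [hv, r', inner_sub_left, inner_smul_left, ho hj]
      ring), hv]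
    have : ⟪r' i, vc C Ci (p i) 0⟫_ℂ = d i := by
      simp only [r', d, inner_sub_left, inner_smul_left, i20, i30, hηc]
    have h2 : (2:ℂ) * ((2 * d i)⁻¹ * d i) = 1 := by
      have := hd i
      field_simp
    rw [this, smul_smul, h2, one_smul]
  have ρg : ∀ i x, 2 * ⟪vc C Ci (p i) 3, ρ x⟫_ℂ = -η i * ⟪r' i, x⟫_ℂ := by
    intro i x
    rw [loc2 r v ρ hρ i _ x (fun j hj => by
      simp only [r, inner_sub_right, inner_smul_right, ho hj.symm]
      ring), hv]
    have : ⟪vc C Ci (p i) 3, r i⟫_ℂ = -η i * d i := by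
      simp only [r, d, inner_sub_right, inner_smul_right, i30, i31]
      linear_combination (-s i) * hηs i
    rw [this]
    have := hd i
    field_simp
  let K : Submodule ℂ H := (Submodule.span ℂ {x | ∃ i a, ε i ≠ η i ∧ x = vc C Ci (p i) a})ᗮ
  let Sy : H →L[ℂ] H := K.reflection.toContinuousLinearEquiv
  have SS : ∀ x, Sy (Sy x) = x := fun x => K.reflection_reflection x
  have Sa : ∀ x y, ⟪Sy x, y⟫_ℂ = ⟪x, Sy y⟫_ℂ := fun x y => by
    conv_lhs => rw [← SS y]
    exact K.reflection.inner_map_map _ _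
  have Sv : ∀ i a, Sy (vc C Ci (p i) a) = (ε i * η i) • vc C Ci (p i) a := by
    intro i a
    by_cases h : ε i = η i
    · rw [h, hηs, one_smul]
      refine K.reflection_mem_subspace_eq_self ?_
      intro y hy
      induction hy using Submodule.span_induction with
      | mem y hy =>
        obtain ⟨j, b, hj, rfl⟩ := hy
        exact ho (fun hh : j = i => hj (by rw [hh]; exact h)) _ _
      | zero => simp
      | add a b _ _ ha hb => rw [inner_add_left, ha, hb, add_zero]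
      | smul c a _ ha => rw [inner_smul_left, ha, mul_zero]
    · have : ε i * η i = -1 := by
        rcases hε i with h1 | h1 <;> rcases hη1 i with h2 | h2 <;> simp_all
      rw [this, neg_one_smul]
      exact K.reflection_mem_subspace_orthogonalComplement_eq_neg
        (Submodule.le_orthogonal_orthogonal _ (Submodule.subset_span ⟨i, a, h, rfl⟩))
  have hθc : ∀ i, (starRingEnd ℂ) (ε i * η i) = ε i * η i := fun i => by
    rcases hε i with h | h <;> simp [h, hηc]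
  have Sρ : ∀ x, Sy (ρ x) = ρ (Sy x) := by
    intro x
    have h1 := (hρ x).mapL Sy
    refine h1.unique ?_
    have h2 := hρ (Sy x)
    have : (fun i => Sy (⟪v i, x⟫_ℂ • r i)) = fun i => ⟪v i, Sy x⟫_ℂ • r i := by
      funext i
      have b1 : Sy (r i) = (ε i * η i) • r i := by
        simp only [r, map_sub, map_smul, Sv, smul_sub]
        rw [smul_comm]
      have b2 : Sy (r' i) = (ε i * η i) • r' i := by
        simp only [r', map_sub, map_smul, Sv, smul_sub]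
        rw [smul_comm]
      rw [map_smul, b1, hv, hv, ← Sa, b2, inner_smul_left, hθc, smul_smul]
      congr 1
      ring
    rw [this]
    exact h2
  refine ⟨Sy * (1 - (2:ℂ) • ρ), ?_, fun i => ?_, fun i x => ?_⟩
  · ext x
    simp only [ContinuousLinearMap.mul_apply, ContinuousLinearMap.sub_apply,
      ContinuousLinearMap.smul_apply, ContinuousLinearMap.one_apply, map_sub, map_smul, ← Sρ, SS,
      ρρ]
    module
  · have := ρe i
    simp only [ContinuousLinearMap.mul_apply, ContinuousLinearMap.sub_apply,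
      ContinuousLinearMap.smul_apply, ContinuousLinearMap.one_apply]
    change C (Sy (vc C Ci (p i) 0 - (2:ℂ) • ρ (vc C Ci (p i) 0))) = _
    rw [this]
    simp only [r, sub_sub_cancel, map_smul, Sv]
    change η i • (ε i * η i) • C (Ci (p i).1) = _
    rw [hCx, smul_smul]
    congr 1
    linear_combination ε i * hηs i
  · simp only [ContinuousLinearMap.mul_apply, ContinuousLinearMap.sub_apply,
      ContinuousLinearMap.smul_apply, ContinuousLinearMap.one_apply]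
    rw [← i3, ← Sa, Sv, inner_smul_left, hθc, inner_sub_right, inner_smul_right, ρg]
    simp only [r', inner_sub_left, inner_smul_left, hηc]
    change _ = ε i * ⟪vc C Ci (p i) 2, x⟫_ℂ
    linear_combination (ε i * ⟪vc C Ci (p i) 2, x⟫_ℂ -
      ε i * η i * ⟪vc C Ci (p i) 3, x⟫_ℂ) * hηs i

end Pool.Agent.H.MP_b9c098_an
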