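import Pool.Agent.H.MP_b9c098_an.E

set_option autoImplicit false

namespace Pool.Agent.H.MP_b9c098_an
open scoped InnerProductSpace
open Cardinal
universe u

variable {H : Type u} [NormedAddCommGroup H] [InnerProductSpace ℂ H] [CompleteSpace H]

lemma exZ {I : Type*} (e e' : I → H) (he : Orthonormal ℂ e) (M : ℝ) (hM : ∀ i, ‖e' i‖ ≤ M)
    (hM0 : 0 < M) (h1 : ∀ i, ⟪e' i, e i⟫_ℂ = 1)
    (h2 : Pairwise fun i j => ⟪e' i, e j⟫_ℂ = 0) (h3 : Pairwise fun i j => ⟪e' i, e' j⟫_ℂ = 0) :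
    ∃ Z : H →L[ℂ] H, Z * Z = 0 ∧ (∀ i, Z (e i) = 0) ∧
      ∀ i y, ⟪e i, y + Z y⟫_ℂ = ⟪e' i, y⟫_ℂ := by
  have ee : ∀ i, ⟪e i, e i⟫_ℂ = 1 := fun i => by
    rw [inner_self_eq_norm_sq_to_K, he.1 i]; simp
  have h2' : Pairwise fun i j => ⟪e i, e' j⟫_ℂ = 0 := fun i j hij =>
    inner_eq_zero_symm.mp (h2 hij.symm)
  obtain ⟨Z, hZ⟩ := exR1 e (fun i => e' i - e i) (M + 1) (by positivity)
    (fun i => by rw [he.1 i]; linarith)
    (fun i => (norm_sub_le _ _).trans (by rw [he.1 i]; linarith [hM i]))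
    he.2 (fun i j hij => by
      simp only [inner_sub_left, inner_sub_right, h3 hij, h2 hij, h2' hij, he.2 hij]; ring)
  have Ze : ∀ i, Z (e i) = 0 := by
    intro i
    rw [loc1 _ _ Z hZ i _ (fun j hj => by
      simp only [inner_sub_left, h2 hj, he.2 hj, sub_zero]), inner_sub_left, h1, ee, sub_self,
      zero_smul]
  refine ⟨Z, ?_, Ze, fun i y => ?_⟩
  · ext x
    have := (hZ x).mapL Z
    simp only [map_smul, Ze, smul_zero] at this
    exact this.unique hasSum_zero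
  · rw [inner_add_right, loc2 _ _ Z hZ i _ y (fun j hj => he.2 hj.symm), ee, inner_sub_left]
    ring

def sgn : Bool → ℂ
  | false => 1
  | true => -1

lemma four (B Bi : H →L[ℂ] H) (hB : B * Bi = 1) (hB' : Bi * B = 1) (l : ℂ) (hl : l ≠ 0)
    (ι : Type u) (f : ι ⊕ ((Blk × Bool) × ι) → H) (hf : Orthonormal ℂ f)
    (h1 : ∀ β s j, B (f (.inr ((β, s), j))) = sgn s • f (.inr ((β, s), j)))
    (h2 : ∀ β s j x, ⟪f (.inr ((β, s), j)), B x⟫_ℂ = sgn s * ⟪f (.inr ((β, s), j)), x⟫_ℂ)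
    (hc : ∀ (κ : Type u) (v : κ → H), Orthonormal ℂ v → Cardinal.mk κ ≤ Cardinal.mk ι) :
    ∃ J1 J2 J3 J4 : H →L[ℂ] H, J1 * J1 = 1 ∧ J2 * J2 = 1 ∧ J3 * J3 = 1 ∧ J4 * J4 = 1 ∧
      l • B = J1 * J2 * J3 * J4 := by
  classical
  let c : ℂ := ((√2)⁻¹ : ℝ)
  have hcc : (starRingEnd ℂ) c = c := Complex.conj_ofReal _
  have hc2 : c * c * 2 = 1 := by
    have : ((√2)⁻¹ * (√2)⁻¹ * 2 : ℝ) = 1 := by
      rw [← mul_inv, Real.mul_self_sqrt (by norm_num)]; norm_num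
    simp only [c]
    exact_mod_cast this
  let h : Blk × Bool → ι → H := fun γ j =>
    c • (f (.inr ((γ.1, false), j)) + sgn γ.2 • f (.inr ((γ.1, true), j)))
  have hi := orthonormal_iff_ite.mp hf
  have sc : ∀ s, (starRingEnd ℂ) (sgn s) = sgn s := by intro s; cases s <;> simp [sgn]
  have key : ∀ β s β' s' i j, ⟪h (β, s) i, h (β', s') j⟫_ℂ =
      if β = β' ∧ s = s' ∧ i = j then 1 else 0 := by
    intro β s β' s' i j
    simp only [h, inner_smul_left, inner_smul_right, inner_add_left, inner_add_right, hi, hcc, sc]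
    by_cases a : β = β' <;> by_cases b : i = j <;> cases s <;> cases s' <;>
      simp [a, b, sgn] <;> linear_combination hc2
  refine swindle B Bi hB hB' l hl ι (fun i => f (.inl i)) h (hf.comp _ Sum.inl_injective)
    ?_ ?_ ?_ ?_ ?_ hc
  · rintro ⟨β, s⟩
    rw [orthonormal_iff_ite]
    intro i j
    rw [key]; simp
  · rintro ⟨β, s⟩ ⟨β', s'⟩ hne i j
    rw [key, if_neg]
    rintro ⟨rfl, rfl, -⟩
    exact hne rfl
  · intro γ i j
    simp [h, inner_smul_left, inner_add_left, hi]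
  · intro β s j
    simp only [h, map_smul, map_add, h1]
    cases s <;> simp [sgn]
  · intro β s j x
    simp only [h, inner_smul_left, inner_add_left, h2, sc]
    cases s <;> simp [sgn]

theorem five (hH : ¬ FiniteDimensional ℂ H) (A Ai : H →L[ℂ] H) (hA : A * Ai = 1)
    (hA' : Ai * A = 1) :
    ∃ J1 J2 J3 J4 J5 : H →L[ℂ] H, J1 * J1 = 1 ∧ J2 * J2 = 1 ∧ J3 * J3 = 1 ∧ J4 * J4 = 1 ∧
      J5 * J5 = 1 ∧ A = J1 * J2 * J3 * J4 * J5 := by
  obtain ⟨κ, hκ, hex, hcard⟩ := ex_kappa hH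
  have k : Kp H κ := ⟨hκ, hex⟩
  obtain ⟨l, hl, δ, hδ, hD⟩ := L3 k A Ai hA hA'
  set C := l⁻¹ • A with hCd
  set Ci := l • Ai with hCid
  have hC : C * Ci = 1 := by
    rw [hCd, hCid, smul_mul_smul_comm, hA, inv_mul_cancel₀ hl, one_smul]
  have hC' : Ci * C = 1 := by
    rw [hCd, hCid, smul_mul_smul_comm, hA', mul_inv_cancel₀ hl, one_smul]
  obtain ⟨F, hF, hg, ho⟩ := zorn_fam k C Ci δ hδ hD
  have hinf : ℵ₀ ≤ Cardinal.mk F := hκ.trans hF
  have hcd : Cardinal.mk (F ⊕ ((Blk × Bool) × F) : Type u) = Cardinal.mk F := by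
    simp [Cardinal.aleph0_mul_eq hinf, Cardinal.add_eq_self hinf]
  obtain ⟨φ⟩ := Cardinal.eq.mp hcd
  have ho' : Pairwise fun i j : F ⊕ ((Blk × Bool) × F) =>
      ∀ a b, ⟪vc C Ci (φ i).1 a, vc C Ci (φ j).1 b⟫_ℂ = 0 := fun i j hij =>
    ho (φ i).2 (φ j).2 fun hh => hij (φ.injective (Subtype.ext hh))
  let ε : F ⊕ ((Blk × Bool) × F) → ℂ := Sum.elim (fun _ => 1) fun q => sgn q.1.2
  obtain ⟨J, hJ, hJ1, hJ2⟩ := exJ C Ci hC δ hδ (fun i => (φ i).1) (fun i => hg _ (φ i).2) ho' ε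
    (by
      rintro (i | ⟨⟨β, s⟩, j⟩)
      · exact Or.inl rfl
      · cases s
        · exact Or.inl rfl
        · exact Or.inr rfl)
  have he : Orthonormal ℂ fun i => (φ i).1.1 :=
    ⟨fun i => (hg _ (φ i).2).1, fun i j hij => ho' hij 0 0⟩
  obtain ⟨Z, hZ, hZ1, hZ2⟩ := exZ (fun i => (φ i).1.1) (fun i => (φ i).1.2) he δ⁻¹
    (fun i => (hg _ (φ i).2).2.1) (by positivity) (fun i => (hg _ (φ i).2).2.2.1)
    (fun i j hij => ho' hij 2 0) (fun i j hij => ho' hij 2 2)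
  have z1 : (1 + Z) * (1 - Z) = 1 := by
    rw [add_mul, one_mul, mul_sub, mul_one, hZ]; abel
  have z2 : (1 - Z) * (1 + Z) = 1 := by
    rw [sub_mul, one_mul, mul_add, mul_one, hZ]; abel
  have c1 : ∀ X : H →L[ℂ] H, (1 + Z) * ((1 - Z) * X) = X := fun X => by
    rw [← mul_assoc, z1, one_mul]
  have c2 : ∀ X : H →L[ℂ] H, (1 - Z) * ((1 + Z) * X) = X := fun X => by
    rw [← mul_assoc, z2, one_mul]
  have c3 : ∀ X : H →L[ℂ] H, J * (J * X) = X := fun X => by rw [← mul_assoc, hJ, one_mul]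
  have c4 : ∀ X : H →L[ℂ] H, C * (Ci * X) = X := fun X => by rw [← mul_assoc, hC, one_mul]
  have c5 : ∀ X : H →L[ℂ] H, Ci * (C * X) = X := fun X => by rw [← mul_assoc, hC', one_mul]
  obtain ⟨J1, J2, J3, J4, h1, h2, h3, h4, h5⟩ := four ((1 + Z) * (C * J) * (1 - Z))
    ((1 + Z) * (J * Ci) * (1 - Z)) (by simp only [mul_assoc, c2, c3, c4, z1])
    (by simp only [mul_assoc, c2, c3, c5, z1]) l hl F (fun i => (φ i).1.1) he
    (fun β s j => by
      simp only [ContinuousLinearMap.mul_apply, ContinuousLinearMap.add_apply,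
        ContinuousLinearMap.sub_apply, ContinuousLinearMap.one_apply, hZ1, sub_zero, hJ1,
        map_smul, smul_zero, add_zero]
      rfl)
    (fun β s j x => by
      have a := hZ2 (.inr ((β, s), j)) ((1 - Z) x)
      have b : (1 - Z) x + Z ((1 - Z) x) = x := by
        have : ((1 + Z) * (1 - Z)) x = x := by rw [z1]; rfl
        exact this
      rw [b] at a
      rw [a]
      exact (hZ2 _ _).trans (hJ2 _ _))
    (fun κ' v hv => (hcard κ' v hv).trans hF)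
  have cj : ∀ X : H →L[ℂ] H, X * X = 1 →
      ((1 - Z) * X * (1 + Z)) * ((1 - Z) * X * (1 + Z)) = 1 := fun X hX => by
    have : ∀ Y : H →L[ℂ] H, X * (X * Y) = Y := fun Y => by rw [← mul_assoc, hX, one_mul]
    simp only [mul_assoc, c1, this, z2]
  refine ⟨_, _, _, _, J, cj J1 h1, cj J2 h2, cj J3 h3, cj J4 h4, hJ, ?_⟩
  have : (1 - Z) * (J1 * J2 * J3 * J4) * (1 + Z) * J = A := by
    rw [← h5]
    simp only [mul_smul_comm, smul_mul_assoc, mul_assoc, c2, hJ, z2, mul_one]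
    rw [hCd, smul_smul, mul_inv_cancel₀ hl, one_smul]
  rw [← this]
  simp only [mul_assoc, c1]

end Pool.Agent.H.MP_b9c098_an
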